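import Pool.Agent.L0h23.AD.Diam
import Pool.Agent.Y638.RF.OuMv

set_option autoImplicit false

/-! # The row of a vertex asks for the bits encoded in the rest of the graph -/

namespace Pool.Agent.L0h23.AD

open Finset Pool.Agent.Y638.RF

variable {n : ℕ}

/-- the graph which encodes the string `z` -/
def enc (z : Fin n × Fin n → Bool) : ∀ i, Item n i
  | none => fun j c => match c with
    | .inl k => !z (j, k)
    | .inr j' => decide (j' = j)
  | some _ => fun _ => true

/-- the neighbours of `x i` which ask for the bit `t` -/
def ask (t : Fin n × Fin n) : Fin n ⊕ Fin n → Bool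
  | .inl k => decide (k = t.2)
  | .inr j' => decide (j' ≠ t.1)

theorem diam_enc (i : Fin n) (t : Fin n × Fin n) (z : Fin n × Fin n → Bool) :
    diamThree n (Function.update (enc z) (some i) (ask t)) = z t := by
  have h0 : ∀ j c, Function.update (enc z : ∀ i, Item n i) (some i) (ask t) none j c =
      enc z none j c := fun j c => by
    rw [Function.update_of_ne (by simp)]
  rw [Bool.eq_iff_iff, diamThree_iff i]
  constructor
  · rintro ⟨i', j, h⟩
    by_cases hi : i' = i
    · subst hi
      rw [Function.update_self] at h
      have h1 : j = t.1 := by
        by_contra h2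
        apply h (.inr j)
        rw [h0]
        refine ⟨?_, ?_⟩
        · show decide (j ≠ t.1) = true
          simpa using h2
        · show decide (j = j) = true
          simp
      have h3 := h (.inl t.2)
      rw [h0] at h3
      have h4 : ask t (.inl t.2) = true := by
        show decide (t.2 = t.2) = true
        simp
      have h5 : ¬ (enc z none j (.inl t.2) = true) := fun h => h3 ⟨h4, h⟩
      have h6 : ¬ ((!z (j, t.2)) = true) := h5
      rw [h1] at h6
      simpa using h6
    · exfalso
      have h3 := h (.inr j)
      rw [h0, Function.update_of_ne (by simpa using hi)] at h3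
      apply h3
      refine ⟨rfl, ?_⟩
      show decide (j = j) = true
      simp
  · intro hz
    refine ⟨i, t.1, fun c => ?_⟩
    rw [h0, Function.update_self]
    rcases c with k | j'
    · rintro ⟨h1, h2⟩
      have h3 : k = t.2 := by simpa [ask] using h1
      have h4 : (!z (t.1, k)) = true := h2
      rw [h3] at h4
      rw [show (t.1, t.2) = t from rfl, hz] at h4
      simp at h4
    · rintro ⟨h1, h2⟩
      have h3 : j' ≠ t.1 := by simpa [ask] using h1
      have h4 : j' = t.1 := by simpa [enc] using h2
      exact h3 h4

theorem asks (i : Fin n) :
    Asks (Fin n × Fin n) (n ^ 2) 0 (fun _ => True) (diamThree n) (some i) := by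
  classical
  refine ⟨(univ : Finset (Fin n × Fin n)).image ask, fun _ => 0, fun t _ => ask t, enc,
    ?_, ?_, ?_, ?_, ?_⟩
  · refine card_image_le.trans (le_of_eq ?_)
    rw [card_univ, Fintype.card_prod, Fintype.card_fin, pow_two]
  · exact fun t z => mem_image_of_mem _ (mem_univ t)
  · exact fun t z z' _ => rfl
  · exact fun _ _ => trivial
  · have h : ∀ (t : Fin n × Fin n) (z : Fin n × Fin n → Bool),
        diamThree n (Function.update (enc z) (some i) (ask t)) = z t := fun t z => diam_enc i t z
    simp only [h, ne_eq, not_true_eq_false, filter_false, card_empty]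
    simp

end Pool.Agent.L0h23.AD
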