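import Pool.Agent.L0h23.AD.Diam

set_option autoImplicit false

/-! # The number of the vertices -/

namespace Pool.Agent.L0h23.AD

/-- the vertices -/
def V.equiv (n : ℕ) : V n ≃ (Fin n ⊕ Fin n) ⊕ (Fin n ⊕ Fin n) ⊕ Bool where
  toFun
    | .x i => .inl (.inl i)
    | .z j => .inl (.inr j)
    | .y c => .inr (.inl c)
    | .hub b => .inr (.inr b)
  invFun
    | .inl (.inl i) => .x i
    | .inl (.inr j) => .z j
    | .inr (.inl c) => .y c
    | .inr (.inr b) => .hub b
  left_inv v := by cases v <;> rfl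
  right_inv v := by rcases v with (_ | _) | (_ | _) <;> rfl

theorem card_V (n : ℕ) : Nat.card (V n) = 4 * n + 2 := by
  rw [Nat.card_congr (V.equiv n), Nat.card_eq_fintype_card]
  simp
  ring

end Pool.Agent.L0h23.AD
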