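import Mathlib

set_option autoImplicit false

/-! # Undirected unweighted graphs of diameter two or three -/

namespace Pool.Agent.L0h23.AD

/-- The items of the input: the adjacencies `a none j c` of the vertices `z j` and `y c`, and for each
`i` the adjacencies `a (some i) c` of the vertex `x i` with the vertices `y c`. -/
abbrev Item (n : ℕ) : Option (Fin n) → Type
  | none => Fin n → Fin n ⊕ Fin n → Bool
  | some _ => Fin n ⊕ Fin n → Bool

/-- The `4 n + 2` vertices: `x i`, `z j` (`i, j < n`), the `2 n` vertices `y c`, and two hubs. -/
inductive V (n : ℕ) : Type
  | x : Fin n → V n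
  | z : Fin n → V n
  | y : Fin n ⊕ Fin n → V n
  | hub : Bool → V n

/-- The edges, in one direction. -/
def rel {n : ℕ} (a : ∀ i, Item n i) : V n → V n → Prop
  | .x i, .y c => a (some i) c = true
  | .z j, .y c => a none j c = true
  | .x _, .hub b => b = false
  | .z _, .hub b => b = true
  | .y _, .hub _ => True
  | .hub b, .hub b' => b = false ∧ b' = true
  | _, _ => False

/-- The graph: `x i` is adjacent to `hub false` and to the `y c` with `a (some i) c`; `z j` is adjacent to
`hub true` and to the `y c` with `a none j c`; and both hubs are adjacent to each other and to all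
`y c`. -/
def graph {n : ℕ} (a : ∀ i, Item n i) : SimpleGraph (V n) := SimpleGraph.fromRel (rel a)

open Classical in
/-- Is the diameter of the graph equal to three? -/
noncomputable def diamThree (n : ℕ) (a : ∀ i, Item n i) : Bool := decide ((graph a).diam = 3)

end Pool.Agent.L0h23.AD
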