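import Pool.Agent.L0h23.AD.Defs

set_option autoImplicit false

/-! # The diameter of the graphs -/

namespace Pool.Agent.L0h23.AD

variable {n : ℕ} (a : ∀ i, Item n i)

theorem adj_iff (u v : V n) : (graph a).Adj u v ↔ u ≠ v ∧ (rel a u v ∨ rel a v u) :=
  SimpleGraph.fromRel_adj _ _ _

theorem adj_xh (i : Fin n) : (graph a).Adj (.x i) (.hub false) := by
  rw [adj_iff]
  exact ⟨by simp, Or.inl rfl⟩

theorem adj_zh (j : Fin n) : (graph a).Adj (.z j) (.hub true) := by
  rw [adj_iff]
  exact ⟨by simp, Or.inl rfl⟩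

theorem adj_yh (c : Fin n ⊕ Fin n) (b : Bool) : (graph a).Adj (.y c) (.hub b) := by
  rw [adj_iff]
  exact ⟨by simp, Or.inl trivial⟩

theorem adj_hh : (graph a).Adj (.hub false) (.hub true) := by
  rw [adj_iff]
  exact ⟨by simp, Or.inl ⟨rfl, rfl⟩⟩

theorem adj_xy (i : Fin n) (c : Fin n ⊕ Fin n) :
    (graph a).Adj (.x i) (.y c) ↔ a (some i) c = true := by
  rw [adj_iff]
  simp [rel]

theorem adj_zy (j : Fin n) (c : Fin n ⊕ Fin n) :
    (graph a).Adj (.z j) (.y c) ↔ a none j c = true := by
  rw [adj_iff]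
  simp [rel]

/-- distance at most two -/
def Near (u v : V n) : Prop := u = v ∨ (graph a).Adj u v ∨ ∃ w, (graph a).Adj u w ∧ (graph a).Adj w v

variable {a}

theorem Near.symm {u v : V n} (h : Near a u v) : Near a v u := by
  rcases h with h | h | ⟨w, h1, h2⟩
  · exact Or.inl h.symm
  · exact Or.inr (Or.inl h.symm)
  · exact Or.inr (Or.inr ⟨w, h2.symm, h1.symm⟩)

theorem near_iff {u v : V n} : (graph a).edist u v ≤ 2 ↔ Near a u v := by
  constructor
  · intro h
    have h1 : (graph a).edist u v ≠ ⊤ := ne_top_of_le_ne_top (by decide) h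
    obtain ⟨p, hp⟩ := SimpleGraph.exists_walk_of_edist_ne_top h1
    rw [← hp] at h
    have h2 : p.length ≤ 2 := by exact_mod_cast h
    cases p with
    | nil => exact Or.inl rfl
    | cons h3 p =>
      cases p with
      | nil => exact Or.inr (Or.inl h3)
      | cons h4 p =>
        cases p with
        | nil => exact Or.inr (Or.inr ⟨_, h3, h4⟩)
        | cons h5 p =>
          simp only [SimpleGraph.Walk.length_cons] at h2
          omega
  · rintro (h | h | ⟨w, h1, h2⟩)
    · subst h
      simp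
    · refine (SimpleGraph.edist_le (SimpleGraph.Walk.cons h SimpleGraph.Walk.nil)).trans ?_
      simp
    · refine (SimpleGraph.edist_le (SimpleGraph.Walk.cons h1
        (SimpleGraph.Walk.cons h2 SimpleGraph.Walk.nil))).trans ?_
      simp

theorem near_x_hub (i : Fin n) (b : Bool) : Near a (.x i) (.hub b) := by
  cases b
  · exact Or.inr (Or.inl (adj_xh a i))
  · exact Or.inr (Or.inr ⟨_, adj_xh a i, adj_hh a⟩)

theorem near_z_hub (j : Fin n) (b : Bool) : Near a (.z j) (.hub b) := by
  cases b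
  · exact Or.inr (Or.inr ⟨_, adj_zh a j, (adj_hh a).symm⟩)
  · exact Or.inr (Or.inl (adj_zh a j))

theorem near_hub_hub (b b' : Bool) : Near a (.hub b) (.hub b') := by
  cases b <;> cases b'
  · exact Or.inl rfl
  · exact Or.inr (Or.inl (adj_hh a))
  · exact Or.inr (Or.inl (adj_hh a).symm)
  · exact Or.inl rfl

/-- The only pairs which may have distance three. -/
theorem near_or (u v : V n) : Near a u v ∨
    ∃ i j, (u = .x i ∧ v = .z j) ∨ (u = .z j ∧ v = .x i) := by
  cases u with
  | x i =>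
    cases v with
    | x i' => exact Or.inl (Or.inr (Or.inr ⟨_, adj_xh a i, (adj_xh a i').symm⟩))
    | z j => exact Or.inr ⟨i, j, Or.inl ⟨rfl, rfl⟩⟩
    | y c => exact Or.inl (Or.inr (Or.inr ⟨_, adj_xh a i, (adj_yh a c _).symm⟩))
    | hub b => exact Or.inl (near_x_hub i b)
  | z j =>
    cases v with
    | x i => exact Or.inr ⟨i, j, Or.inr ⟨rfl, rfl⟩⟩
    | z j' => exact Or.inl (Or.inr (Or.inr ⟨_, adj_zh a j, (adj_zh a j').symm⟩))
    | y c => exact Or.inl (Or.inr (Or.inr ⟨_, adj_zh a j, (adj_yh a c _).symm⟩))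
    | hub b => exact Or.inl (near_z_hub j b)
  | y c =>
    cases v with
    | x i => exact Or.inl (Or.inr (Or.inr ⟨_, adj_yh a c _, (adj_xh a i).symm⟩))
    | z j => exact Or.inl (Or.inr (Or.inr ⟨_, adj_yh a c _, (adj_zh a j).symm⟩))
    | y c' => exact Or.inl (Or.inr (Or.inr ⟨_, adj_yh a c false, (adj_yh a c' false).symm⟩))
    | hub b => exact Or.inl (Or.inr (Or.inl (adj_yh a c b)))
  | hub b =>
    cases v with
    | x i => exact Or.inl (near_x_hub i b).symm
    | z j => exact Or.inl (near_z_hub j b).symm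
    | y c => exact Or.inl (Or.inr (Or.inl (adj_yh a c b).symm))
    | hub b' => exact Or.inl (near_hub_hub b b')

theorem near_xz (i j : Fin n) : Near a (.x i) (.z j) ↔
    ∃ c, a (some i) c = true ∧ a none j c = true := by
  constructor
  · rintro (h | h | ⟨w, h1, h2⟩)
    · cases h
    · rw [adj_iff] at h
      simp [rel] at h
    · cases w with
      | x i' =>
        rw [adj_iff] at h1
        simp [rel] at h1
      | z j' =>
        rw [adj_iff] at h2
        simp [rel] at h2
      | y c => exact ⟨c, (adj_xy a i c).1 h1, (adj_zy a j c).1 h2.symm⟩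
      | hub b =>
        rw [adj_iff] at h1 h2
        cases b <;> simp [rel] at h1 h2
  · rintro ⟨c, h1, h2⟩
    exact Or.inr (Or.inr ⟨.y c, (adj_xy a i c).2 h1, ((adj_zy a j c).2 h2).symm⟩)

theorem edist_le_three (u v : V n) : (graph a).edist u v ≤ 3 := by
  rcases near_or (a := a) u v with h | ⟨i, j, ⟨h1, h2⟩ | ⟨h1, h2⟩⟩
  · exact (near_iff.2 h).trans (by decide)
  · subst h1 h2
    refine (SimpleGraph.edist_le (SimpleGraph.Walk.cons (adj_xh a i)
      (SimpleGraph.Walk.cons (adj_hh a) (SimpleGraph.Walk.cons (adj_zh a j).symm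
        SimpleGraph.Walk.nil)))).trans ?_
    simp
  · subst h1 h2
    refine (SimpleGraph.edist_le (SimpleGraph.Walk.cons (adj_zh a j)
      (SimpleGraph.Walk.cons (adj_hh a).symm (SimpleGraph.Walk.cons (adj_xh a i).symm
        SimpleGraph.Walk.nil)))).trans ?_
    simp

theorem ediam_le_three : (graph a).ediam ≤ 3 := SimpleGraph.ediam_le_of_edist_le edist_le_three

theorem ediam_le_two : (graph a).ediam ≤ 2 ↔
    ∀ i j, ∃ c, a (some i) c = true ∧ a none j c = true := by
  constructor
  · intro h i j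
    rw [← near_xz, ← near_iff]
    exact SimpleGraph.edist_le_ediam.trans h
  · intro h
    refine SimpleGraph.ediam_le_of_edist_le fun u v => near_iff.2 ?_
    rcases near_or (a := a) u v with h1 | ⟨i, j, ⟨h1, h2⟩ | ⟨h1, h2⟩⟩
    · exact h1
    · subst h1 h2
      exact (near_xz i j).2 (h i j)
    · subst h1 h2
      exact ((near_xz i j).2 (h i j)).symm

theorem two_le_ediam (i : Fin n) : 2 ≤ (graph a).ediam := by
  have h : ¬ (graph a).edist (.x i) (.hub true) ≤ 1 := by
    rw [SimpleGraph.edist_le_one_iff_adj_or_eq, not_or]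
    refine ⟨fun h => ?_, by simp⟩
    rw [adj_iff] at h
    simp [rel] at h
  have h1 : (graph a).edist (.x i) (.hub true) ≤ (graph a).ediam := SimpleGraph.edist_le_ediam
  rw [not_le] at h
  have h2 := h.trans_le h1
  exact Order.add_one_le_of_lt h2

theorem diam_or (i : Fin n) : (graph a).diam = 2 ∨ (graph a).diam = 3 := by
  have h1 := ediam_le_three (a := a)
  have h2 := two_le_ediam (a := a) i
  have h3 : (graph a).diam = (graph a).ediam.toNat := rfl
  obtain ⟨k, hk⟩ := ENat.ne_top_iff_exists.1 (ne_top_of_le_ne_top (by decide) h1)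
  rw [← hk] at h1 h2 h3
  have h4 : k ≤ 3 := by exact_mod_cast h1
  have h5 : 2 ≤ k := by exact_mod_cast h2
  rw [h3, ENat.toNat_natCast]
  omega

theorem diam_eq_three (i : Fin n) : (graph a).diam = 3 ↔
    ∃ i j, ∀ c, ¬ (a (some i) c = true ∧ a none j c = true) := by
  have h1 := ediam_le_three (a := a)
  have h2 := two_le_ediam (a := a) i
  have h3 : (graph a).diam = (graph a).ediam.toNat := rfl
  have h6 := ediam_le_two (a := a)
  obtain ⟨k, hk⟩ := ENat.ne_top_iff_exists.1 (ne_top_of_le_ne_top (by decide) h1)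
  rw [← hk] at h1 h2 h3 h6
  have h4 : k ≤ 3 := by exact_mod_cast h1
  have h5 : 2 ≤ k := by exact_mod_cast h2
  rw [h3, ENat.toNat_natCast]
  have h7 : k = 3 ↔ ¬ ((k : ℕ∞) ≤ 2) := by
    rw [show ((k : ℕ∞) ≤ 2) ↔ k ≤ 2 by exact_mod_cast Iff.rfl]
    omega
  rw [h7, h6]
  push Not
  rfl

theorem diamThree_iff (i : Fin n) : diamThree n a = true ↔
    ∃ i j, ∀ c, ¬ (a (some i) c = true ∧ a none j c = true) := by
  unfold diamThree
  rw [decide_eq_true_iff, diam_eq_three i]

end Pool.Agent.L0h23.AD
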