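import Pool.Agent.N452.FF.Lower
import Pool.Agent.N452.TF.Xor
import Pool.Agent.L0h23.AD.Asks

set_option autoImplicit false

/-! # Diameter two or three: circuits over formulas of bilinear maps over a finite field
(adapted from `Pool.Agent.L0h23.AF.MinPlus`) -/

namespace Pool.Agent.L0h23.AD

open Finset Pool.Agent.TH697.Form Pool.Agent.TH697.Row
open Pool.Agent.N452.FF
open Pool.Agent.N452.TF.Xor (pairs)

variable {n c w d e : ℕ}

/-- the arithmetic -/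
theorem arith {n c w l X a s : ℝ} (hn : 32 ≤ n) (hc : 1 ≤ c) (hw : 1 ≤ w)
    (hl1 : 1 ≤ l) (hX : 0 ≤ X) (ha : a ≤ 4 * l) (hs : 0 ≤ s)
    (h : n * ((49 / 600 - 0) * n ^ 2 - 1) ≤ (3 + 5 * a + 6 * X + 2 * (w - 1) * c) * s) :
    n ^ 3 ≤ 300 * (w * c + l + X) * s := by
  have h0 : 1024 ≤ n ^ 2 := by nlinarith
  have h1 : 2 / 25 * n ^ 2 ≤ (49 / 600 - 0) * n ^ 2 - 1 := by linarith
  have h2 : n * (2 / 25 * n ^ 2) ≤ n * ((49 / 600 - 0) * n ^ 2 - 1) :=
    mul_le_mul_of_nonneg_left h1 (by linarith)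
  have hwc : 0 ≤ w * c := by positivity
  have h3 : 3 + 5 * a + 6 * X + 2 * (w - 1) * c ≤ 23 * (w * c + l + X) := by
    have e2 : 2 * (w - 1) * c = 2 * (w * c) - 2 * c := by ring
    rw [e2]
    linarith
  have h4 := mul_le_mul_of_nonneg_right h3 hs
  have e1 : n * (2 / 25 * n ^ 2) = 2 / 25 * n ^ 3 := by ring
  rw [e1] at h2
  have h9 : 0 ≤ (w * c + l + X) * s := mul_nonneg (by positivity) hs
  nlinarith

theorem bound_field {K : Type} [Field K] [Fintype K] [DecidableEq K]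
    (hn : 32 ≤ n) (hc : 1 ≤ c) (hw : 1 ≤ w) (he : 1 ≤ e)
    {Ω : Type} [Fintype Ω] (μ : Ω → ℝ) (hμ : IsProb μ) (s : ℕ)
    (C : Ω → Circuit K (Option (Fin n)) (Item n) w (2 ^ c) d e)
    (hs : ∀ ω, (C ω).circ.cost (pairs n) ≤ s)
    (hF : ApproximatesOn μ (fun ω => (C ω).eval) (fun _ => True) (diamThree n)) :
    (n : ℝ) ^ 3 ≤ 300 * (w * c + Real.logb 2 n +
      d * (d + (Fintype.card K : ℝ) ^ e) * Real.logb 2 (Fintype.card K)) * s := by
  classical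
  have hw' : (1 : ℝ) ≤ w := by exact_mod_cast hw
  have hc' : (1 : ℝ) ≤ c := by exact_mod_cast hc
  have hn' : (32 : ℝ) ≤ n := by exact_mod_cast hn
  have hs0 : (0 : ℝ) ≤ s := Nat.cast_nonneg s
  obtain ⟨k, hk⟩ : ∃ k, k = Fintype.card K := ⟨_, rfl⟩
  have hk1 : 2 ≤ k := by
    rw [hk]
    exact Fintype.one_lt_card
  have hk' : (2 : ℝ) ≤ k := by exact_mod_cast hk1
  have hlk : 0 ≤ Real.logb 2 (k : ℝ) := Real.logb_nonneg (by norm_num) (by linarith)
  have hd0 : (0 : ℝ) ≤ d := Nat.cast_nonneg d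
  have hke : (2 : ℝ) ≤ (k : ℝ) ^ e := by
    calc (2 : ℝ) ≤ k := hk'
      _ = (k : ℝ) ^ 1 := (pow_one _).symm
      _ ≤ (k : ℝ) ^ e := pow_le_pow_right₀ (by linarith) he
  have hee : (e : ℝ) ≤ (k : ℝ) ^ e := by
    have h1 : e < 2 ^ e := Nat.lt_two_pow_self
    have h2 : 2 ^ e ≤ k ^ e := Nat.pow_le_pow_left hk1 e
    exact_mod_cast (h1.le.trans h2)
  obtain ⟨X, hX⟩ : ∃ X, X = d * (d + (k : ℝ) ^ e) * Real.logb 2 k := ⟨_, rfl⟩
  have hX0 : 0 ≤ X := by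
    rw [hX]
    positivity
  rw [← hk, ← hX]
  obtain ⟨-, hl1⟩ := Pool.Agent.TH457.Ary.OuMv.logb_n hn
  by_cases hsn : n ^ 3 ≤ s
  · have h1 : (n : ℝ) ^ 3 ≤ s := by exact_mod_cast hsn
    have h2 : (1 : ℝ) ≤ w * c := by nlinarith
    have h3 : 1 ≤ 300 * (w * c + Real.logb 2 n + X) := by linarith
    nlinarith
  have h := circuit_lower μ hμ s C (fun _ => True) (diamThree n) hF he
    (Nat.one_le_two_pow) hw (n ^ 2) 0 (pairs n) hs
    (T := Fin n × Fin n) (by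
      intro a ha
      unfold pairs at ha
      rw [mem_map] at ha
      obtain ⟨i, -, rfl⟩ := ha
      exact asks i)
  unfold pairs at h
  rw [card_map, card_univ, Fintype.card_fin, Pool.Agent.TH457.Ary.OuMv.card_T, ← hk] at h
  have hls : Real.logb 2 ((2 + s : ℕ) : ℝ) ≤ 4 * Real.logb 2 n := by
    have h1 : 2 + s ≤ n ^ 4 := by
      have h2 : n ^ 3 + 1 ≤ n ^ 4 := by
        have h3 : n ^ 4 = n * n ^ 3 := by ring
        have h4 : 1 ≤ n ^ 3 := Nat.one_le_pow _ _ (by omega)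
        rw [h3]
        nlinarith
      omega
    have h2 : ((2 + s : ℕ) : ℝ) ≤ (n : ℝ) ^ 4 := by exact_mod_cast h1
    have h3 := Real.logb_le_logb_of_le (by norm_num : (1 : ℝ) < 2) (by positivity) h2
    rw [Real.logb_pow] at h3
    have h4 : ((4 : ℕ) : ℝ) = 4 := by norm_num
    rw [h4] at h3
    exact h3
  have hXX : 2 * ((d : ℝ) * (d + k ^ e + e + 2)) * Real.logb 2 k ≤ 6 * X := by
    have h7 : (d : ℝ) * (d + k ^ e + e + 2) ≤ d * (3 * (d + (k : ℝ) ^ e)) :=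
      mul_le_mul_of_nonneg_left (by linarith) hd0
    have h8 := mul_le_mul_of_nonneg_right h7 hlk
    calc 2 * ((d : ℝ) * (d + k ^ e + e + 2)) * Real.logb 2 k
        = 2 * ((d : ℝ) * (d + k ^ e + e + 2) * Real.logb 2 k) := by ring
      _ ≤ 2 * (d * (3 * (d + (k : ℝ) ^ e)) * Real.logb 2 k) := by linarith
      _ = 6 * X := by rw [hX]; ring
  refine arith (l := Real.logb 2 n) (a := Real.logb 2 ((2 + s : ℕ) : ℝ))
    hn' hc' hw' hl1 hX0 hls hs0 ?_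
  push_cast at h
  rw [Pool.Agent.TH457.Ary.OuMv.logb_two_pow'] at h
  refine h.trans ?_
  apply mul_le_mul_of_nonneg_right _ hs0
  push_cast
  linarith

end Pool.Agent.L0h23.AD
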