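import Pool.Agent.N452.TF.Conv
import Pool.Agent.Y638.RF.Sum
import Pool.Agent.L0h23.AD.Diam
import Pool.Agent.N452.TF.Xor

set_option autoImplicit false

/-! # Diameter two or three by words of length `c` -/

namespace Pool.Agent.L0h23.AD

open Finset Pool.Agent.Y638.RF

variable {n c : ℕ}

/-- the codes -/
noncomputable def code (c : ℕ) : (Fin c → Bool) ≃ Fin (2 ^ c) :=
  Fintype.equivFinOfCardEq (by simp)

/-- the bits with the numbers `c a, …, c a + c - 1` -/
def cut (c : ℕ) (v : Fin n ⊕ Fin n → Bool) (a : ℕ) (l : Fin c) : Bool :=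
  if h : a * c + l.val < n + n then v (finSumFinEquiv.symm ⟨a * c + l.val, h⟩) else false

/-- the `a`-th parts of the neighbourhoods of `x i` and `z j` -/
noncomputable def part (n c : ℕ) (i j : Fin n) (a : ℕ) :
    Word (Option (Fin n)) (Item n) 2 (2 ^ c) where
  item := ![some i, none]
  view := fun k => match k with
    | ⟨0, _⟩ => fun (v : Fin n ⊕ Fin n → Bool) => code c (cut c v a)
    | ⟨1, _⟩ => fun (M : Fin n → Fin n ⊕ Fin n → Bool) => code c (cut c (M j) a)
  out := fun e => if ∃ l, (code c).symm (e 0) l = true ∧ (code c).symm (e 1) l = true then 1 else 0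

theorem part_eval (i j : Fin n) (a : ℕ) (x : ∀ i, Item n i) :
    (Fml.word (part n c i j a)).eval x =
      if ∃ l, cut c (x (some i)) a l = true ∧ cut c (x none j) a l = true then 1 else 0 := by
  have e0 : ∀ v : Fin c → Bool, (code c).symm (code c v) = v :=
    fun v => (code c).symm_apply_apply v
  have e1 : (Fml.word (part n c i j a)).eval x =
      if ∃ l, (code c).symm (code c (cut c (x (some i)) a)) l = true ∧
        (code c).symm (code c (cut c (x none j) a)) l = true then 1 else 0 := rfl
  rw [e1, e0, e0]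

theorem exists_cut (hc : 1 ≤ c) (u v : Fin n ⊕ Fin n → Bool) :
    (∃ a : Fin (2 * n / c + 1), ∃ l, cut c u a l = true ∧ cut c v a l = true) ↔
      ∃ k, u k = true ∧ v k = true := by
  constructor
  · rintro ⟨a, l, h1, h2⟩
    unfold cut at h1 h2
    by_cases h : a.val * c + l.val < n + n
    · rw [dif_pos h] at h1 h2
      exact ⟨_, h1, h2⟩
    · rw [dif_neg h] at h1
      exact absurd h1 (by simp)
  · rintro ⟨k, h1, h2⟩
    obtain ⟨m, hm⟩ : ∃ m, m = finSumFinEquiv k := ⟨_, rfl⟩
    have hk : m.val / c < 2 * n / c + 1 := by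
      have := Nat.div_le_div_right (c := c) (show m.val ≤ 2 * n by have := m.2; omega)
      omega
    have hk2 : m.val / c * c + m.val % c = m.val := by
      have := Nat.div_add_mod m.val c
      rw [mul_comm] at this
      exact this
    have hk3 : finSumFinEquiv.symm m = k := by rw [hm, Equiv.symm_apply_apply]
    have hh : m.val / c * c + m.val % c < n + n := by rw [hk2]; exact m.2
    have hk4 : (⟨m.val / c * c + m.val % c, hh⟩ : Fin (n + n)) = m := Fin.ext hk2
    refine ⟨⟨m.val / c, hk⟩, ⟨m.val % c, Nat.mod_lt _ hc⟩, ?_, ?_⟩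
    · unfold cut
      rw [dif_pos hh, hk4, hk3]
      exact h1
    · unfold cut
      rw [dif_pos hh, hk4, hk3]
      exact h2

theorem upper (hn : 1 ≤ n) (hc : 1 ≤ c) : ∃ F : Fml (Option (Fin n)) (Item n) 2 (2 ^ c),
    F.size = 2 * n ^ 2 * (2 * n / c + 1) ∧ ∀ x, F.accepts x = diamThree n x := by
  classical
  have key : ∀ (x : ∀ i, Item n i) (p : Fin n × Fin n),
      (Fml.sym (2 * n / c + 1) (fun k => if k = 0 then (1 : ℝ) else 0)
        (fun a => Fml.word (part n c p.1 p.2 a))).eval x =
      if ¬ ∃ k, x (some p.1) k = true ∧ x none p.2 k = true then 1 else 0 := by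
    intro x p
    have h0 := exists_cut hc (x (some p.1)) (x none p.2)
    have h1 : (univ.filter (fun a : Fin (2 * n / c + 1) =>
        0 < (Fml.word (part n c p.1 p.2 a)).eval x)).card = 0 ↔
        ¬ ∃ a : Fin (2 * n / c + 1), ∃ l, cut c (x (some p.1)) a l = true ∧
          cut c (x none p.2) a l = true := by
      rw [card_eq_zero, filter_eq_empty_iff]
      push Not
      constructor
      · intro h a l h2 h3
        have h4 := h (mem_univ a)
        rw [part_eval, if_pos ⟨l, h2, h3⟩] at h4
        norm_num at h4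
      · intro h a _
        rw [part_eval]
        split_ifs with h3
        · obtain ⟨l, h4, h5⟩ := h3
          exact absurd h5 (h a l h4)
        · exact le_rfl
    have e : (Fml.sym (2 * n / c + 1) (fun k => if k = 0 then (1 : ℝ) else 0)
        (fun a => Fml.word (part n c p.1 p.2 a))).eval x =
        if (univ.filter (fun a : Fin (2 * n / c + 1) =>
          0 < (Fml.word (part n c p.1 p.2 a)).eval x)).card = 0 then 1 else 0 := rfl
    rw [e]
    rw [h0] at h1
    by_cases h2 : (univ.filter (fun a : Fin (2 * n / c + 1) =>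
        0 < (Fml.word (part n c p.1 p.2 a)).eval x)).card = 0
    · rw [if_pos h2, if_pos (h1.1 h2)]
    · rw [if_neg h2, if_neg (fun h3 => h2 (h1.2 h3))]
  obtain ⟨F, h1, h2⟩ := exists_or (w := 2) (q := 2 ^ c)
    (fun p : Fin n × Fin n => Fml.sym (2 * n / c + 1) (fun k => if k = 0 then 1 else 0)
      (fun a => Fml.word (part n c p.1 p.2 a)))
    (fun x p => ¬ ∃ k, x (some p.1) k = true ∧ x none p.2 k = true)
    (fun x p => by
      rw [key]
      split_ifs <;> simp)
    (fun x p => by
      rw [key]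
      split_ifs with h
      · simp [h]
      · simp only [h]
        norm_num)
    (diamThree n) (fun x => by
      rw [diamThree_iff ⟨0, hn⟩]
      constructor
      · rintro ⟨i, j, h⟩
        exact ⟨(i, j), fun ⟨k, h2⟩ => h k h2⟩
      · rintro ⟨p, h⟩
        exact ⟨p.1, p.2, fun k h2 => h ⟨k, h2⟩⟩)
  refine ⟨F, ?_, h2⟩
  rw [h1]
  simp only [Fml.size, sum_const, card_univ, Fintype.card_prod, Fintype.card_fin, smul_eq_mul,
    mul_one]
  ring

/-- one formula of real numbers, without shared bits -/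
theorem upper_circuit (hn : 1 ≤ n) (hc : 1 ≤ c) :
    ∃ C : Pool.Agent.N452.TF.Circuit (Option (Fin n)) (Item n) 2 (2 ^ c) 1,
      C.bits = 0 ∧ C.circ.cost (Pool.Agent.N452.TF.Xor.pairs n) ≤
        4 * n ^ 2 * (2 * n / c + 1) + 2 ∧ ∀ x, C.eval x = diamThree n x := by
  obtain ⟨F, h1, h2⟩ := upper (n := n) hn hc
  obtain ⟨B, h3, h4⟩ := exists_program F (2 * n ^ 2 * (2 * n / c + 1) + 1) (by omega)
  obtain ⟨C, h5, h6, h7⟩ := Pool.Agent.N452.TF.exists_circuit (by norm_num) B
    (Pool.Agent.N452.TF.Xor.pairs n)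
  refine ⟨C, h5, h6.trans (le_of_eq (by ring)), fun x => ?_⟩
  rw [h7, h4, h2]

end Pool.Agent.L0h23.AD
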